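import Pool.Agent.Helper92_DE.Base

/-!
# Coordinates at the points of the charts (modules LATY and LATR)
-/

open MvPolynomial

noncomputable section

namespace Pool.Agent.H66DE

namespace H92

/-! ## Linear algebra -/

theorem alt_det {K M W : Type} [Field K] [AddCommGroup M] [Module K M] [AddCommGroup W]
    [Module K W] (φ : M [⋀^Fin 3]→ₗ[K] W) (u : Fin 3 → M) (c : Matrix (Fin 3) (Fin 3) K) :
    φ (fun i => ∑ j, c i j • u j) = c.det • φ u := by
  let L : (Fin 3 → K) →ₗ[K] M := Fintype.linearCombination K u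
  let f : (Fin 3 → K) [⋀^Fin 3]→ₗ[K] W := φ.compLinearMap L
  let g : (Fin 3 → K) [⋀^Fin 3]→ₗ[K] W :=
    (LinearMap.toSpanSingleton K W (φ u)).compAlternatingMap Matrix.detRowAlternating
  have hfg : f = g := by
    refine Module.Basis.ext_alternating (Pi.basisFun K (Fin 3)) fun v hv => ?_
    let σ : Equiv.Perm (Fin 3) := Equiv.ofBijective v (Finite.injective_iff_bijective.1 hv)
    have hσ : v = σ := rfl
    have h1 : (fun i => L ((Pi.basisFun K (Fin 3)) (v i))) = fun i => u (σ i) := by
      funext i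
      rw [hσ]
      simp [L, Fintype.linearCombination_apply, Pi.single_apply]
    have h2 : (f fun i => (Pi.basisFun K (Fin 3)) (v i)) = Equiv.Perm.sign σ • φ u := by
      rw [← AlternatingMap.map_perm]
      change φ (fun i => L ((Pi.basisFun K (Fin 3)) (v i))) = _
      rw [h1]
      rfl
    have h3 : Matrix.detRowAlternating (fun i => (Pi.basisFun K (Fin 3)) (v i)) =
        (Equiv.Perm.sign σ • (1 : K)) := by
      have := AlternatingMap.map_perm (Matrix.detRowAlternating (n := Fin 3) (R := K))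
        (fun i => (Pi.basisFun K (Fin 3)) i) σ
      have h4 : Matrix.detRowAlternating (fun i => (Pi.basisFun K (Fin 3)) i) = (1 : K) := by
        have : (fun i => (Pi.basisFun K (Fin 3)) i) = (1 : Matrix (Fin 3) (Fin 3) K) := by
          funext i j
          simp [Matrix.one_apply, Pi.single_apply, eq_comm]
        rw [this]
        exact Matrix.det_one
      rw [h4] at this
      exact this
    rw [h2]
    change _ = LinearMap.toSpanSingleton K W (φ u)
      (Matrix.detRowAlternating (fun i => (Pi.basisFun K (Fin 3)) (v i)))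
    rw [h3, LinearMap.toSpanSingleton_apply, smul_assoc, one_smul]
  have h := congrArg (fun q => q c) hfg
  change φ (fun i => L (c i)) = Matrix.det c • φ u at h
  rw [← h]
  congr 1

section

variable {K : Type} [Field K] [Algebra ℂ K]

/-- the three-form `du₀ ∧ du₁ ∧ du₂` -/
def form3 (u : Fin 3 → K) : ⋀[K]^3 (Ω[K⁄ℂ]) :=
  exteriorPower.ιMulti K 3 (fun i => KaehlerDifferential.D ℂ K (u i))

/-- the change of variables formula -/
theorem form3_eq (u v : Fin 3 → K) (c : Matrix (Fin 3) (Fin 3) K)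
    (h : ∀ i, KaehlerDifferential.D ℂ K (v i) = ∑ j, c i j • KaehlerDifferential.D ℂ K (u j)) :
    form3 v = c.det • form3 u := by
  rw [form3, form3, ← alt_det]
  congr 1
  funext i
  exact h i

/-- elements of `A` with differential in `M` -/
def dsub (A : Subring K) (M : Submodule A (Ω[K⁄ℂ])) : Subring K where
  carrier := {z | z ∈ A ∧ KaehlerDifferential.D ℂ K z ∈ M}
  mul_mem' := by
    rintro z w ⟨h1, h2⟩ ⟨h3, h4⟩
    refine ⟨mul_mem h1 h3, ?_⟩
    rw [Derivation.leibniz]
    exact add_mem (M.smul_mem ⟨z, h1⟩ h4) (M.smul_mem ⟨w, h3⟩ h2)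
  one_mem' := ⟨one_mem A, by rw [Derivation.map_one_eq_zero]; exact zero_mem M⟩
  add_mem' := by
    rintro z w ⟨h1, h2⟩ ⟨h3, h4⟩
    exact ⟨add_mem h1 h3, by rw [map_add]; exact add_mem h2 h4⟩
  zero_mem' := ⟨zero_mem A, by rw [map_zero]; exact zero_mem M⟩
  neg_mem' := by
    rintro z ⟨h1, h2⟩
    exact ⟨neg_mem h1, by rw [map_neg]; exact neg_mem h2⟩

theorem dsub_inv {A : Subring K} {M : Submodule A (Ω[K⁄ℂ])} {z : K} (hz : z ∈ dsub A M)
    (hi : z⁻¹ ∈ A) : z⁻¹ ∈ dsub A M := by
  refine ⟨hi, ?_⟩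
  rw [Derivation.leibniz_inv]
  exact M.smul_mem ⟨-z⁻¹ ^ 2, neg_mem (pow_mem hi 2)⟩ hz.2

theorem dsub_const {A : Subring K} {M : Submodule A (Ω[K⁄ℂ])} {c : ℂ} (hc : algebraMap ℂ K c ∈ A) :
    algebraMap ℂ K c ∈ dsub A M :=
  ⟨hc, by rw [Derivation.map_algebraMap]; exact zero_mem M⟩

theorem formLattice_eq (A : Subring K) (u : Fin 3 → K) (hu : ∀ k, u k ∈ A)
    (hA : A ≤ dsub A (Submodule.span A (Set.range fun k => KaehlerDifferential.D ℂ K (u k)))) :
    formLattice K A = Submodule.span A {form3 u} := by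
  apply le_antisymm
  · rw [formLattice, Submodule.span_le]
    rintro w ⟨a, ha, rfl⟩
    have h1 : ∀ i, ∃ c : Fin 3 → A, ∑ j, c j • KaehlerDifferential.D ℂ K (u j) =
        KaehlerDifferential.D ℂ K (a i) := fun i =>
      (Submodule.mem_span_range_iff_exists_fun A).1 (hA (ha i)).2
    choose c hc using h1
    have h2 := form3_eq u a (fun i j => (c i j : K)) (fun i => (hc i).symm)
    have h3 : Matrix.det (fun i j => (c i j : K)) = ((Matrix.det (fun i j => c i j) : A) : K) := by
      have := RingHom.map_det A.subtype (fun i j => c i j)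
      rw [← Subring.coe_subtype, this]
      rfl
    change form3 a ∈ _
    rw [h2, h3]
    exact Submodule.smul_mem _ _ (Submodule.mem_span_singleton_self _)
  · rw [Submodule.span_singleton_le_iff_mem]
    exact Submodule.subset_span ⟨u, hu, rfl⟩

theorem span_unit (A : Subring K) {W : Type} [AddCommGroup W] [Module K W] (v w : W) (c : K)
    (hc : c ∈ A) (hc' : c⁻¹ ∈ A) (h0 : c ≠ 0) (h : w = c • v) :
    Submodule.span A {v} = Submodule.span A {w} := by
  apply le_antisymm
  · rw [Submodule.span_singleton_le_iff_mem]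
    have : v = (⟨c⁻¹, hc'⟩ : A) • w := by
      rw [h, Subring.smul_def, smul_smul, inv_mul_cancel₀ h0, one_smul]
    rw [this]
    exact Submodule.smul_mem _ _ (Submodule.mem_span_singleton_self _)
  · rw [Submodule.span_singleton_le_iff_mem, h]
    exact Submodule.smul_mem _ (⟨c, hc⟩ : A) (Submodule.mem_span_singleton_self _)

end

/-! ## Localization subrings -/

section

variable {K : Type} [Field K] (C : Subring K) (p : Ideal C) [hp : p.IsPrime]

theorem mem_loc_of (z : K) (hz : z ∈ C) : z ∈ locSubring C K p :=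
  ⟨⟨z, hz⟩, 1, fun h => hp.ne_top ((Ideal.eq_top_iff_one _).2 h), by
    change z * 1 = z; rw [mul_one]⟩

theorem inv_mem_loc (z : K) (hz : z ∈ C) (h : (⟨z, hz⟩ : C) ∉ p) : z⁻¹ ∈ locSubring C K p := by
  refine ⟨1, ⟨z, hz⟩, h, ?_⟩
  change z⁻¹ * z = 1
  refine inv_mul_cancel₀ ?_
  rintro rfl
  exact h p.zero_mem

theorem loc_le_dsub [Algebra ℂ K] (M : Submodule (locSubring C K p) (Ω[K⁄ℂ]))
    (h : C ≤ dsub (locSubring C K p) M) : locSubring C K p ≤ dsub (locSubring C K p) M := by
  rintro z ⟨a, s, hs, hz⟩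
  have h1 : (s : K)⁻¹ ∈ locSubring C K p := inv_mem_loc C p s s.2 hs
  have hs0 : (s : K) ≠ 0 := by
    intro h0
    apply hs
    have : s = 0 := Subtype.ext h0
    rw [this]; exact p.zero_mem
  have h2 : z = (a : K) * (s : K)⁻¹ := by
    rw [eq_mul_inv_iff_mul_eq₀ hs0]; exact hz
  rw [h2]
  exact mul_mem (h a.2) (dsub_inv (h s.2) h1)

end

/-! ## The coordinates -/

section

variable {K : Type} [Field K] [Algebra R0 K] [FaithfulSMul R0 K] [Algebra ℂ K]
  [IsScalarTower ℂ R0 K]

/-- Data of coordinates at `p`. -/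
def HasCoord (i : Option (Fin 3)) (p : Ideal (chart K i)) [p.IsPrime] : Prop :=
  ∃ u : Fin 3 → K, (∀ k, u k ∈ chart K i) ∧
    (locSubring (chart K i) K p ≤ dsub (locSubring (chart K i) K p)
      (Submodule.span _ (Set.range fun k => KaehlerDifferential.D ℂ K (u k)))) ∧
    ∃ c : K, c ≠ 0 ∧ c ∈ locSubring (chart K i) K p ∧ c⁻¹ ∈ locSubring (chart K i) K p ∧
      eta0 K = c • form3 u

theorem coord_none (p : Ideal (chart K none)) [p.IsPrime] : HasCoord none p := by
  refine ⟨fun j => ks K (some j) / ks K none, fun j => div_mem_chart none (some j),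
    loc_le_dsub _ _ _ (chartX_le _ ?_ ?_), 1, one_ne_zero, one_mem _, ?_, ?_⟩
  · intro c
    exact dsub_const (mem_loc_of _ _ _ (const_mem_chart none c))
  · intro j
    exact ⟨mem_loc_of _ _ _ (div_mem_chart none (some j)), Submodule.subset_span ⟨j, rfl⟩⟩
  · rw [inv_one]; exact one_mem _
  · rw [one_smul]; rfl

theorem three_ne : (3 : K) ≠ 0 := by
  have h : (3 : K) = algebraMap ℂ K 3 := by rw [map_ofNat]
  rw [h, Ne, FaithfulSMul.algebraMap_eq_zero_iff]
  norm_num

theorem inv3_mem (i : Option (Fin 3)) : (3 : K)⁻¹ ∈ chart K i := by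
  have h : (3 : K)⁻¹ = algebraMap ℂ K 3⁻¹ := by rw [map_inv₀, map_ofNat]
  rw [h]; exact const_mem_chart i _

/-- the symmetric relation -/
theorem krel' (j : Fin 3) : ks K none ^ 4 + (ks K (some j) ^ 3 + ks K (some (j + 1)) ^ 3 +
    ks K (some (j + 2)) ^ 3) = 0 := by
  have h := krel K
  fin_cases j
  · exact h
  · change ks K none ^ 4 + (ks K (some 1) ^ 3 + ks K (some 2) ^ 3 + ks K (some 0) ^ 3) = 0
    linear_combination h
  · change ks K none ^ 4 + (ks K (some 2) ^ 3 + ks K (some 0) ^ 3 + ks K (some 1) ^ 3) = 0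
    linear_combination h

theorem sign_addLeft : ∀ j : Fin 3, Equiv.Perm.sign (Equiv.addLeft j) = 1 := by decide

theorem cases3 : ∀ j l : Fin 3, l = j ∨ l = j + 1 ∨ l = j + 2 := by decide

theorem eta0_perm (j : Fin 3) : eta0 K = form3 (fun k : Fin 3 =>
    ks K (some (j + k)) / ks K none) := by
  have h : form3 (fun k : Fin 3 => ks K (some (j + k)) / ks K none) =
      (Equiv.Perm.sign (Equiv.addLeft j)) • eta0 K := by
    rw [eta0, ← AlternatingMap.map_perm]
    rfl
  rw [h]
  have h2 : Equiv.Perm.sign (Equiv.addLeft j) = 1 := sign_addLeft j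
  rw [h2, one_smul]

variable (K) in
/-- the coordinates on the chart `y_j` -/
def xx (j : Fin 3) : K := ks K none / ks K (some j)

variable (K) in
def zz (j : Fin 3) : K := ks K (some (j + 1)) / ks K (some j)

variable (K) in
def tt (j : Fin 3) : K := ks K (some (j + 2)) / ks K (some j)

theorem rel4 (j : Fin 3) : xx K j ^ 4 * ks K (some j) + 1 + zz K j ^ 3 + tt K j ^ 3 = 0 := by
  have h := krel' (K := K) j
  have hy := ks_ne K (some j)
  rw [xx, zz, tt]
  field_simp
  linear_combination h

theorem chartY_le (j : Fin 3) (B : Subring K) (hc : ∀ c : ℂ, algebraMap ℂ K c ∈ B)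
    (hx : xx K j ∈ B) (hy : ks K (some j) ∈ B) (hz : zz K j ∈ B) (ht : tt K j ∈ B) :
    chart K (some j) ≤ B := by
  have h1 : ∀ i, ks K i / ks K (some j) ∈ B := by
    rintro (_ | l)
    · exact hx
    · rcases cases3 j l with rfl | rfl | rfl
      · rw [div_self (ks_ne K _)]; exact one_mem B
      · exact hz
      · exact ht
  refine chart_le B _ (r0_mem B hc fun i => ?_) h1
  have : ks K i = ks K i / ks K (some j) * ks K (some j) := (div_mul_cancel₀ _ (ks_ne K _)).symm
  rw [this]
  exact mul_mem (h1 i) hy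

theorem eta0_Y (j : Fin 3) : eta0 K = (-(xx K j)⁻¹ ^ 4) • form3 ![xx K j, zz K j, tt K j] := by
  rw [eta0_perm j]
  have hx : xx K j ≠ 0 := div_ne_zero (ks_ne K _) (ks_ne K _)
  have hy := ks_ne K (some j)
  have hn := ks_ne K none
  have e0 : ks K (some (j + 0)) / ks K none = (xx K j)⁻¹ := by
    rw [xx, inv_div, add_zero]
  have e1 : ks K (some (j + 1)) / ks K none = zz K j * (xx K j)⁻¹ := by
    rw [xx, zz]; field_simp
  have e2 : ks K (some (j + 2)) / ks K none = tt K j * (xx K j)⁻¹ := by
    rw [xx, tt]; field_simp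
  rw [form3_eq ![xx K j, zz K j, tt K j] _
    !![-(xx K j)⁻¹ ^ 2, 0, 0; -(zz K j) * (xx K j)⁻¹ ^ 2, (xx K j)⁻¹, 0;
      -(tt K j) * (xx K j)⁻¹ ^ 2, 0, (xx K j)⁻¹]]
  · congr 1
    rw [Matrix.det_fin_three]
    simp
    ring
  · intro i
    rw [Fin.sum_univ_three]
    fin_cases i
    · change KaehlerDifferential.D ℂ K (ks K (some (j + 0)) / ks K none) = _
      rw [e0, Derivation.leibniz_inv]
      simp
    · change KaehlerDifferential.D ℂ K (ks K (some (j + 1)) / ks K none) = _
      rw [e1, Derivation.leibniz, Derivation.leibniz_inv]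
      simp [smul_smul]
    · change KaehlerDifferential.D ℂ K (ks K (some (j + 2)) / ks K none) = _
      rw [e2, Derivation.leibniz, Derivation.leibniz_inv]
      simp [smul_smul]

theorem drel (j : Fin 3) : (4 * xx K j ^ 3 * ks K (some j)) • KaehlerDifferential.D ℂ K (xx K j) +
    (xx K j ^ 4) • KaehlerDifferential.D ℂ K (ks K (some j)) +
    (3 * zz K j ^ 2) • KaehlerDifferential.D ℂ K (zz K j) +
    (3 * tt K j ^ 2) • KaehlerDifferential.D ℂ K (tt K j) = 0 := by
  have h := congrArg (KaehlerDifferential.D ℂ K) (rel4 (K := K) j)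
  rw [map_zero] at h
  rw [← h]
  simp only [map_add, Derivation.leibniz, Derivation.leibniz_pow, Derivation.map_one_eq_zero]
  simp only [smul_smul, ← Nat.cast_smul_eq_nsmul K, add_zero]
  push_cast
  module

theorem mem_xx (j : Fin 3) : xx K j ∈ chart K (some j) := div_mem_chart _ _
theorem mem_zz (j : Fin 3) : zz K j ∈ chart K (some j) := div_mem_chart _ _
theorem mem_tt (j : Fin 3) : tt K j ∈ chart K (some j) := div_mem_chart _ _
theorem mem_yy (j : Fin 3) : ks K (some j) ∈ chart K (some j) := alg_mem_chart _ _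

theorem coord_some (j : Fin 3) (p : Ideal (chart K (some j))) [hp : p.IsPrime] :
    HasCoord (some j) p := by
  set A := locSubring (chart K (some j)) K p with hA
  have hCA : ∀ z, z ∈ chart K (some j) → z ∈ A := fun z hz => mem_loc_of _ _ _ hz
  have h3A : (3 : K)⁻¹ ∈ A := hCA _ (inv3_mem _)
  have h3 : (3 : K) ≠ 0 := three_ne
  have h4A : (3 : K) ∈ A := by exact_mod_cast natCast_mem A 3
  have h5A : (4 : K) ∈ A := by exact_mod_cast natCast_mem A 4
  have hx0 : xx K j ≠ 0 := div_ne_zero (ks_ne K _) (ks_ne K _)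
  have hz0 : zz K j ≠ 0 := div_ne_zero (ks_ne K _) (ks_ne K _)
  have ht0 : tt K j ≠ 0 := div_ne_zero (ks_ne K _) (ks_ne K _)
  have hrel := rel4 (K := K) j
  have hd := drel (K := K) j
  by_cases hx : (⟨xx K j, mem_xx j⟩ : chart K (some j)) ∈ p
  · by_cases hz : (⟨zz K j, mem_zz j⟩ : chart K (some j)) ∈ p
    · by_cases ht : (⟨tt K j, mem_tt j⟩ : chart K (some j)) ∈ p
      · exfalso
        apply hp.ne_top
        rw [Ideal.eq_top_iff_one]
        have h1 : (1 : chart K (some j)) = -((⟨xx K j, mem_xx j⟩ : chart K (some j)) *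
            (⟨xx K j, mem_xx j⟩ ^ 3 * ⟨ks K (some j), mem_yy j⟩) +
            ⟨zz K j, mem_zz j⟩ * ⟨zz K j, mem_zz j⟩ ^ 2 +
            ⟨tt K j, mem_tt j⟩ * ⟨tt K j, mem_tt j⟩ ^ 2) := by
          apply Subtype.ext
          change (1 : K) = -(xx K j * (xx K j ^ 3 * ks K (some j)) + zz K j * zz K j ^ 2 +
            tt K j * tt K j ^ 2)
          linear_combination hrel
        rw [h1]
        exact p.neg_mem (p.add_mem (p.add_mem (p.mul_mem_right _ hx) (p.mul_mem_right _ hz))
          (p.mul_mem_right _ ht))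
      · -- `t'` is a unit
        have hi : (tt K j)⁻¹ ∈ A := inv_mem_loc _ _ _ _ ht
        refine ⟨![xx K j, zz K j, ks K (some j)], ?_, ?_, (3 * tt K j ^ 2)⁻¹, ?_, ?_, ?_, ?_⟩
        · intro k
          fin_cases k
          · exact mem_xx j
          · exact mem_zz j
          · exact mem_yy j
        · set M := Submodule.span A (Set.range fun k => KaehlerDifferential.D ℂ K
            (![xx K j, zz K j, ks K (some j)] k))
          have m0 : KaehlerDifferential.D ℂ K (xx K j) ∈ M := Submodule.subset_span ⟨0, rfl⟩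
          have m1 : KaehlerDifferential.D ℂ K (zz K j) ∈ M := Submodule.subset_span ⟨1, rfl⟩
          have m2 : KaehlerDifferential.D ℂ K (ks K (some j)) ∈ M := Submodule.subset_span ⟨2, rfl⟩
          have e : KaehlerDifferential.D ℂ K (tt K j) =
              (-((3 : K)⁻¹ * (tt K j)⁻¹ ^ 2)) • ((4 * xx K j ^ 3 * ks K (some j)) •
                KaehlerDifferential.D ℂ K (xx K j) +
              (xx K j ^ 4) • KaehlerDifferential.D ℂ K (ks K (some j)) +
              (3 * zz K j ^ 2) • KaehlerDifferential.D ℂ K (zz K j)) := by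
            rw [← eq_neg_iff_add_eq_zero] at hd
            rw [hd, smul_neg, neg_smul, neg_neg, smul_smul]
            have : (3 : K)⁻¹ * (tt K j)⁻¹ ^ 2 * (3 * tt K j ^ 2) = 1 := by field_simp
            rw [this, one_smul]
          have sm : ∀ (c : K) (w), c ∈ A → w ∈ M → c • w ∈ M := fun c w hc hw =>
            M.smul_mem ⟨c, hc⟩ hw
          have m3 : KaehlerDifferential.D ℂ K (tt K j) ∈ M := by
            rw [e]
            refine sm _ _ (neg_mem (mul_mem h3A (pow_mem hi 2))) (add_mem (add_mem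
              (sm _ _ ?_ m0) (sm _ _ ?_ m2)) (sm _ _ ?_ m1))
            · exact mul_mem (mul_mem h5A (pow_mem (hCA _ (mem_xx j)) 3)) (hCA _ (mem_yy j))
            · exact pow_mem (hCA _ (mem_xx j)) 4
            · exact mul_mem h4A (pow_mem (hCA _ (mem_zz j)) 2)
          exact loc_le_dsub _ _ _ (chartY_le j _ (fun c => dsub_const (hCA _ (const_mem_chart _ c)))
            ⟨hCA _ (mem_xx j), m0⟩ ⟨hCA _ (mem_yy j), m2⟩ ⟨hCA _ (mem_zz j), m1⟩
            ⟨hCA _ (mem_tt j), m3⟩)
        · exact inv_ne_zero (mul_ne_zero h3 (pow_ne_zero _ ht0))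
        · rw [mul_inv, ← inv_pow]; exact mul_mem h3A (pow_mem hi 2)
        · rw [inv_inv]; exact mul_mem h4A (pow_mem (hCA _ (mem_tt j)) 2)
        · rw [eta0_Y j, form3_eq ![xx K j, zz K j, ks K (some j)] ![xx K j, zz K j, tt K j]
            !![1, 0, 0; 0, 1, 0; -(4 * xx K j ^ 3 * ks K (some j)) / (3 * tt K j ^ 2),
              -(3 * zz K j ^ 2) / (3 * tt K j ^ 2), -(xx K j ^ 4) / (3 * tt K j ^ 2)], smul_smul]
          · congr 1
            rw [Matrix.det_fin_three]
            simp
            field_simp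
          · intro i
            rw [Fin.sum_univ_three]
            fin_cases i
            · simp
            · simp
            · have e : KaehlerDifferential.D ℂ K (tt K j) =
                (-((3 : K)⁻¹ * (tt K j)⁻¹ ^ 2)) • ((4 * xx K j ^ 3 * ks K (some j)) •
                  KaehlerDifferential.D ℂ K (xx K j) +
                (xx K j ^ 4) • KaehlerDifferential.D ℂ K (ks K (some j)) +
                (3 * zz K j ^ 2) • KaehlerDifferential.D ℂ K (zz K j)) := by
                rw [← eq_neg_iff_add_eq_zero] at hd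
                rw [hd, smul_neg, neg_smul, neg_neg, smul_smul]
                have : (3 : K)⁻¹ * (tt K j)⁻¹ ^ 2 * (3 * tt K j ^ 2) = 1 := by field_simp
                rw [this, one_smul]
              change KaehlerDifferential.D ℂ K (tt K j) =
                (-(4 * xx K j ^ 3 * ks K (some j)) / (3 * tt K j ^ 2)) •
                  KaehlerDifferential.D ℂ K (xx K j) +
                (-(3 * zz K j ^ 2) / (3 * tt K j ^ 2)) • KaehlerDifferential.D ℂ K (zz K j) +
                (-(xx K j ^ 4) / (3 * tt K j ^ 2)) • KaehlerDifferential.D ℂ K (ks K (some j))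
              rw [e]
              simp only [div_eq_mul_inv, mul_inv, ← inv_pow]
              module
    · -- `z'` is a unit
      have hi : (zz K j)⁻¹ ∈ A := inv_mem_loc _ _ _ _ hz
      have e : KaehlerDifferential.D ℂ K (zz K j) =
          (-((3 : K)⁻¹ * (zz K j)⁻¹ ^ 2)) • ((4 * xx K j ^ 3 * ks K (some j)) •
            KaehlerDifferential.D ℂ K (xx K j) +
          (xx K j ^ 4) • KaehlerDifferential.D ℂ K (ks K (some j)) +
          (3 * tt K j ^ 2) • KaehlerDifferential.D ℂ K (tt K j)) := by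
        have hd' : (4 * xx K j ^ 3 * ks K (some j)) • KaehlerDifferential.D ℂ K (xx K j) +
            (xx K j ^ 4) • KaehlerDifferential.D ℂ K (ks K (some j)) +
            (3 * tt K j ^ 2) • KaehlerDifferential.D ℂ K (tt K j) +
            (3 * zz K j ^ 2) • KaehlerDifferential.D ℂ K (zz K j) = 0 := by
          rw [← hd]; abel
        rw [← eq_neg_iff_add_eq_zero] at hd'
        rw [hd', smul_neg, neg_smul, neg_neg, smul_smul]
        have : (3 : K)⁻¹ * (zz K j)⁻¹ ^ 2 * (3 * zz K j ^ 2) = 1 := by field_simp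
        rw [this, one_smul]
      refine ⟨![xx K j, ks K (some j), tt K j], ?_, ?_, (3 * zz K j ^ 2)⁻¹, ?_, ?_, ?_, ?_⟩
      · intro k
        fin_cases k
        · exact mem_xx j
        · exact mem_yy j
        · exact mem_tt j
      · set M := Submodule.span A (Set.range fun k => KaehlerDifferential.D ℂ K
          (![xx K j, ks K (some j), tt K j] k))
        have m0 : KaehlerDifferential.D ℂ K (xx K j) ∈ M := Submodule.subset_span ⟨0, rfl⟩
        have m1 : KaehlerDifferential.D ℂ K (ks K (some j)) ∈ M := Submodule.subset_span ⟨1, rfl⟩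
        have m2 : KaehlerDifferential.D ℂ K (tt K j) ∈ M := Submodule.subset_span ⟨2, rfl⟩
        have sm : ∀ (c : K) (w), c ∈ A → w ∈ M → c • w ∈ M := fun c w hc hw =>
          M.smul_mem ⟨c, hc⟩ hw
        have m3 : KaehlerDifferential.D ℂ K (zz K j) ∈ M := by
          rw [e]
          refine sm _ _ (neg_mem (mul_mem h3A (pow_mem hi 2))) (add_mem (add_mem
            (sm _ _ ?_ m0) (sm _ _ ?_ m1)) (sm _ _ ?_ m2))
          · exact mul_mem (mul_mem h5A (pow_mem (hCA _ (mem_xx j)) 3)) (hCA _ (mem_yy j))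
          · exact pow_mem (hCA _ (mem_xx j)) 4
          · exact mul_mem h4A (pow_mem (hCA _ (mem_tt j)) 2)
        exact loc_le_dsub _ _ _ (chartY_le j _ (fun c => dsub_const (hCA _ (const_mem_chart _ c)))
          ⟨hCA _ (mem_xx j), m0⟩ ⟨hCA _ (mem_yy j), m1⟩ ⟨hCA _ (mem_zz j), m3⟩
          ⟨hCA _ (mem_tt j), m2⟩)
      · exact inv_ne_zero (mul_ne_zero h3 (pow_ne_zero _ hz0))
      · rw [mul_inv, ← inv_pow]; exact mul_mem h3A (pow_mem hi 2)
      · rw [inv_inv]; exact mul_mem h4A (pow_mem (hCA _ (mem_zz j)) 2)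
      · rw [eta0_Y j, form3_eq ![xx K j, ks K (some j), tt K j] ![xx K j, zz K j, tt K j]
          !![1, 0, 0; -(4 * xx K j ^ 3 * ks K (some j)) / (3 * zz K j ^ 2),
            -(xx K j ^ 4) / (3 * zz K j ^ 2), -(3 * tt K j ^ 2) / (3 * zz K j ^ 2); 0, 0, 1],
          smul_smul]
        · congr 1
          rw [Matrix.det_fin_three]
          simp
          field_simp
        · intro i
          rw [Fin.sum_univ_three]
          fin_cases i
          · simp
          · change KaehlerDifferential.D ℂ K (zz K j) =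
              (-(4 * xx K j ^ 3 * ks K (some j)) / (3 * zz K j ^ 2)) •
                KaehlerDifferential.D ℂ K (xx K j) +
              (-(xx K j ^ 4) / (3 * zz K j ^ 2)) • KaehlerDifferential.D ℂ K (ks K (some j)) +
              (-(3 * tt K j ^ 2) / (3 * zz K j ^ 2)) • KaehlerDifferential.D ℂ K (tt K j)
            rw [e]
            simp only [div_eq_mul_inv, mul_inv, ← inv_pow]
            module
          · simp
  · -- `x'` is a unit
    have hi : (xx K j)⁻¹ ∈ A := inv_mem_loc _ _ _ _ hx
    refine ⟨![xx K j, zz K j, tt K j], ?_, ?_, -(xx K j)⁻¹ ^ 4, ?_, ?_, ?_, eta0_Y j⟩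
    · intro k
      fin_cases k
      · exact mem_xx j
      · exact mem_zz j
      · exact mem_tt j
    · set M := Submodule.span A (Set.range fun k => KaehlerDifferential.D ℂ K
        (![xx K j, zz K j, tt K j] k))
      have m0 : xx K j ∈ dsub A M := ⟨hCA _ (mem_xx j), Submodule.subset_span ⟨0, rfl⟩⟩
      have m1 : zz K j ∈ dsub A M := ⟨hCA _ (mem_zz j), Submodule.subset_span ⟨1, rfl⟩⟩
      have m2 : tt K j ∈ dsub A M := ⟨hCA _ (mem_tt j), Submodule.subset_span ⟨2, rfl⟩⟩
      have e : ks K (some j) = -((1 + zz K j ^ 3 + tt K j ^ 3) * (xx K j)⁻¹ ^ 4) := by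
        field_simp
        linear_combination hrel
      have m3 : ks K (some j) ∈ dsub A M := by
        rw [e]
        exact neg_mem (mul_mem (add_mem (add_mem (one_mem _) (pow_mem m1 3)) (pow_mem m2 3))
          (pow_mem (dsub_inv m0 hi) 4))
      exact loc_le_dsub _ _ _ (chartY_le j _ (fun c => dsub_const (hCA _ (const_mem_chart _ c)))
        m0 m3 m1 m2)
    · exact neg_ne_zero.2 (pow_ne_zero _ (inv_ne_zero hx0))
    · exact neg_mem (pow_mem hi 4)
    · have : (-(xx K j)⁻¹ ^ 4)⁻¹ = -(xx K j) ^ 4 := by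
        rw [inv_neg, inv_pow, inv_inv]
      rw [this]
      exact neg_mem (pow_mem (hCA _ (mem_xx j)) 4)

theorem coord (i : Option (Fin 3)) (p : Ideal (chart K i)) [hp : p.IsPrime] : HasCoord i p := by
  rcases i with _ | j
  · exact coord_none p
  · exact coord_some j p

end

end H92

/-- LATY -/
theorem latChart : LatChartStatement := by
  intro K _ _ _ _ _ i p _
  have : IsDomain R0 := (IsFractionRing.injective R0 K).isDomain _
  have : FaithfulSMul R0 K := IsFractionRing.instFaithfulSMul R0 K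
  obtain ⟨u, hu, hA, c, h0, hc, hc', he⟩ := H92.coord i p
  rw [H92.formLattice_eq _ u (fun k => H92.mem_loc_of _ _ _ (hu k)) hA]
  exact H92.span_unit _ _ _ c hc hc' h0 he

end Pool.Agent.H66DE
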