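import Pool.Agent.Helper92_DE.Forms

/-!
# The canonical form on `R0` (module LATR)
-/

open MvPolynomial

noncomputable section

namespace Pool.Agent.H66DE

namespace H92

/-- evaluation at `(x, y₀, y₁, y₂) = (0, 1, -1, 0)` -/
def evR : R0 →+* ℂ := AdjoinRoot.lift (MvPolynomial.eval ![1, -1, 0]) 0 (by
  rw [fR, Polynomial.eval₂_add, Polynomial.eval₂_pow, Polynomial.eval₂_X, Polynomial.eval₂_C]
  change (0 : ℂ) ^ 4 + MvPolynomial.eval ![1, -1, 0]
    (MvPolynomial.X 0 ^ 3 + MvPolynomial.X 1 ^ 3 + MvPolynomial.X 2 ^ 3) = 0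
  rw [map_add, map_add, map_pow, map_pow, map_pow, eval_X, eval_X, eval_X]
  simp
  norm_num)

theorem evR_x : evR xR = 0 := AdjoinRoot.lift_root _

theorem evR_y : evR (yR 0) = 1 := by
  change evR (AdjoinRoot.of fR (X 0)) = 1
  rw [evR, AdjoinRoot.lift_of, eval_X]
  rfl

theorem exists_notMem [IsDomain R0] (hx : Prime xR) (p : Ideal R0) [p.IsPrime]
    (hp : p.height = 1) : ∃ i, sR i ∉ p := by
  by_contra hcon
  push Not at hcon
  have h1 := Ideal.eq_span_singleton_of_height_eq_one hp (hcon none) hx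
  have h2 : yR 0 ∈ p := hcon (some 0)
  rw [h1, Ideal.mem_span_singleton] at h2
  obtain ⟨r, hr⟩ := h2
  have := congrArg evR hr
  rw [evR_y, map_mul] at this
  change 1 = evR xR * _ at this
  rw [evR_x, zero_mul] at this
  exact one_ne_zero this

section

variable {K : Type} [Field K] [IsDomain R0] [Algebra R0 K] [FaithfulSMul R0 K]

theorem chart_le_loc (p : Ideal R0) [hp : p.IsPrime] (i : Option (Fin 3)) (hi : sR i ∉ p) :
    chart K i ≤ locSubring R0 K p := by
  refine chart_le _ i (fun r => ⟨r, 1, fun h => hp.ne_top ((Ideal.eq_top_iff_one _).2 h), by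
    simp⟩) fun i' => ⟨sR i', sR i, hi, ?_⟩
  exact div_mul_cancel₀ _ (ks_ne K i)

theorem inj {a b : R0} (h : algebraMap R0 K a = algebraMap R0 K b) : a = b :=
  FaithfulSMul.algebraMap_injective R0 K h

/-- the prime of the chart corresponding to `p` -/
def chartPrime (p : Ideal R0) [hp : p.IsPrime] (i : Option (Fin 3)) (hi : sR i ∉ p) :
    Ideal (chart K i) where
  carrier := {z | ∃ a s : R0, a ∈ p ∧ s ∉ p ∧ (z : K) * algebraMap R0 K s = algebraMap R0 K a}
  add_mem' := by
    rintro z w ⟨a, s, ha, hs, h⟩ ⟨b, t, hb, ht, h'⟩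
    refine ⟨a * t + b * s, s * t, p.add_mem (p.mul_mem_right _ ha) (p.mul_mem_right _ hb),
      fun h => (hp.mem_or_mem h).elim hs ht, ?_⟩
    rw [map_add, map_mul, map_mul, map_mul, ← h, ← h']
    change ((z : K) + w) * _ = _
    ring
  zero_mem' := ⟨0, 1, p.zero_mem, fun h => hp.ne_top ((Ideal.eq_top_iff_one _).2 h), by simp⟩
  smul_mem' := by
    rintro c z ⟨a, s, ha, hs, h⟩
    obtain ⟨b, t, ht, h'⟩ := chart_le_loc (K := K) p i hi c.2
    refine ⟨b * a, t * s, p.mul_mem_left _ ha, fun h => (hp.mem_or_mem h).elim ht hs, ?_⟩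
    rw [map_mul, map_mul, ← h, ← h']
    change ((c : K) * z) * _ = _
    ring

theorem chartPrime_isPrime (p : Ideal R0) [hp : p.IsPrime] (i : Option (Fin 3))
    (hi : sR i ∉ p) : (chartPrime (K := K) p i hi).IsPrime := by
  constructor
  · rw [Ne, Ideal.eq_top_iff_one]
    rintro ⟨a, s, ha, hs, h⟩
    have h : (1 : K) * algebraMap R0 K s = algebraMap R0 K a := h
    rw [one_mul] at h
    exact hs (inj h ▸ ha)
  · rintro z w ⟨d, c, hd, hc, h⟩
    have h : ((z : K) * w) * algebraMap R0 K c = algebraMap R0 K d := h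
    obtain ⟨a, s, hs, h1⟩ := chart_le_loc (K := K) p i hi z.2
    obtain ⟨b, t, ht, h2⟩ := chart_le_loc (K := K) p i hi w.2
    have h3 : a * b * c = d * (s * t) := by
      apply inj (K := K)
      rw [map_mul, map_mul, map_mul, map_mul, ← h, ← h1, ← h2]
      ring
    have h4 : a * b * c ∈ p := by rw [h3]; exact p.mul_mem_right _ hd
    rcases hp.mem_or_mem h4 with h5 | h5
    · rcases hp.mem_or_mem h5 with h6 | h6
      · exact Or.inl ⟨a, s, h6, hs, h1⟩
      · exact Or.inr ⟨b, t, h6, ht, h2⟩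
    · exact absurd h5 hc

theorem loc_eq (p : Ideal R0) [hp : p.IsPrime] (i : Option (Fin 3)) (hi : sR i ∉ p)
    [hq : (chartPrime (K := K) p i hi).IsPrime] :
    locSubring R0 K p = locSubring (chart K i) K (chartPrime p i hi) := by
  apply le_antisymm
  · rintro z ⟨a, s, hs, h⟩
    refine ⟨⟨algebraMap R0 K a, alg_mem_chart i a⟩, ⟨algebraMap R0 K s, alg_mem_chart i s⟩, ?_, h⟩
    rintro ⟨b, t, hb, ht, h'⟩
    have h1 : s * t = b := by
      apply inj (K := K)
      rw [map_mul]; exact h'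
    have h2 : s * t ∈ p := by rw [h1]; exact hb
    rcases hp.mem_or_mem h2 with h3 | h3
    · exact hs h3
    · exact ht h3
  · rintro z ⟨a, s, hs, h⟩
    have h : z * (s : K) = (a : K) := h
    obtain ⟨b, t, ht, h1⟩ := chart_le_loc (K := K) p i hi s.2
    obtain ⟨b', t', ht', h2⟩ := chart_le_loc (K := K) p i hi a.2
    have hb : b ∉ p := fun hb => hs ⟨b, t, hb, ht, h1⟩
    refine ⟨b' * t, t' * b, fun h => (hp.mem_or_mem h).elim ht' hb, ?_⟩
    rw [map_mul, map_mul, ← h2, ← h1, ← h]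
    ring

end

end H92

/-- LATR -/
theorem latR (h1 : RBasicStatement) : LatRStatement := by
  intro K _ _ _ _ _ _ _ p hp hh
  obtain ⟨i, hi⟩ := H92.exists_notMem h1.2.2.2 p hh
  have hq := H92.chartPrime_isPrime (K := K) p i hi
  have h2 := H92.loc_eq (K := K) p i hi
  have h3 := latChart K i (H92.chartPrime p i hi)
  have h4 : ∀ A B : Subring K, A = B →
      formLattice K B = Submodule.span B {eta0 K} →
      formLattice K A = Submodule.span A {eta0 K} := by
    rintro A _ rfl h; exact h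
  exact h4 _ _ h2 h3

end Pool.Agent.H66DE
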