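import Pool.Agent.Helper92_DE.Jac

/-!
# Positive discrepancies over points of codimension at least two of the charts (module TERM)
-/

open MvPolynomial

noncomputable section

namespace Pool.Agent.H66DE

namespace H92

section

variable {K : Type} [Field K] [Algebra R0 K] [Algebra ℂ K]

/-- the constants in a chart -/
def cst [IsScalarTower ℂ R0 K] (i : Option (Fin 3)) : ℂ →+* chart K i :=
  (algebraMap ℂ K).codRestrict _ (const_mem_chart i)

/-- evaluation of polynomials in the chart -/
def evC [IsScalarTower ℂ R0 K] {σ : Type} (i : Option (Fin 3)) (u : σ → chart K i) :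
    MvPolynomial σ ℂ →+* chart K i := eval₂Hom (cst i) u

theorem evC_coe [IsScalarTower ℂ R0 K] {σ : Type} (i : Option (Fin 3)) (u : σ → chart K i)
    (F : MvPolynomial σ ℂ) : (evC i u F : K) = aeval (fun k => (u k : K)) F := by
  induction F using MvPolynomial.induction_on with
  | C a => rw [evC, eval₂Hom_C, aeval_C]; rfl
  | add p q hp hq => rw [map_add, map_add, ← hp, ← hq]; rfl
  | mul_X p j hp => rw [map_mul, map_mul, ← hp, aeval_X, evC, eval₂Hom_X']; rfl

variable [IsFractionRing R0 K] [IsScalarTower ℂ R0 K]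

/-- two elements are algebraically dependent modulo a prime of height at least two -/
theorem exists_rel (i : Option (Fin 3)) (p : Ideal (chart K i)) [hp : p.IsPrime]
    (h2 : 2 ≤ p.height) (v : Fin 2 → chart K i) : ∃ F : MvPolynomial (Fin 2) ℂ, F ≠ 0 ∧
      evC i v F ∈ p := by
  by_contra hcon
  push Not at hcon
  have hφ : ∀ F, evC i v F ∈ p → F = 0 := by
    intro F hF
    by_contra h0
    exact hcon F h0 hF
  have h3 : ¬ p.height ≤ (1 : ℕ) := by
    intro h4
    have := h2.trans h4
    exact absurd this (by norm_num)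
  rw [Ideal.height_le_iff] at h3
  push Not at h3
  obtain ⟨q, hq, hqp, hq1⟩ := h3
  have hq0 : q ≠ ⊥ := by
    rintro rfl
    rw [Ideal.height_bot] at hq1
    simp at hq1
  obtain ⟨f, hf, hf'⟩ := Set.exists_of_ssubset hqp
  obtain ⟨g, hg, hg'⟩ := Submodule.exists_mem_ne_zero_of_ne_bot hq0
  have h4 := lift_indep (evC i v) p q hqp.le hφ f hf hf'
  have h5 := lift_indep (Polynomial.eval₂RingHom (evC i v) f) q ⊥ bot_le h4 g hg
    (by rw [Ideal.mem_bot]; exact hg')
  let ψ : Polynomial (Polynomial (MvPolynomial (Fin 2) ℂ)) →+* chart K i :=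
    Polynomial.eval₂RingHom (Polynomial.eval₂RingHom (evC i v) f) g
  have hψ : Function.Injective ψ := by
    rw [injective_iff_map_eq_zero]
    intro F hF
    exact h5 F (by rw [Ideal.mem_bot]; exact hF)
  let χ : Polynomial (Polynomial (MvPolynomial (Fin 2) ℂ)) →ₐ[ℂ] K :=
    { (chart K i).subtype.comp ψ with
      commutes' := by
        intro c
        change ((ψ (Polynomial.C (Polynomial.C (C c))) : chart K i) : K) = _
        change (((Polynomial.C (Polynomial.C (C c))).eval₂
          (Polynomial.eval₂RingHom (evC i v) f) g : chart K i) : K) = _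
        rw [Polynomial.eval₂_C, Polynomial.coe_eval₂RingHom, Polynomial.eval₂_C, evC_coe, aeval_C] }
  have hχ : Function.Injective χ := Subtype.val_injective.comp hψ
  have h6 : Algebra.trdeg ℂ (Polynomial (Polynomial (MvPolynomial (Fin 2) ℂ))) ≤
      Algebra.trdeg ℂ K := trdeg_le_of_injective χ hχ
  rw [trdeg_pp, ← (tbasis K).cardinalMk_eq_trdeg] at h6
  simp at h6
  norm_num at h6

omit [IsFractionRing R0 K] [IsScalarTower ℂ R0 K] [Algebra R0 K] in
theorem D_aeval (u : Fin 3 → K) (f : MvPolynomial (Fin 3) ℂ) :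
    KaehlerDifferential.D ℂ K (aeval u f) =
      ∑ k, aeval u (pderiv k f) • KaehlerDifferential.D ℂ K (u k) := by
  induction f using MvPolynomial.induction_on with
  | C a => simp
  | add p q hp hq =>
    rw [map_add, map_add, hp, hq, ← Finset.sum_add_distrib]
    exact Finset.sum_congr rfl fun k _ => by rw [map_add, map_add, add_smul]
  | mul_X p j hp =>
    rw [map_mul, aeval_X, Derivation.leibniz, hp, Finset.smul_sum]
    have : ∀ k, aeval u (pderiv k (p * X j)) • KaehlerDifferential.D ℂ K (u k) =
        u j • aeval u (pderiv k p) • KaehlerDifferential.D ℂ K (u k) +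
        (if k = j then aeval u p • KaehlerDifferential.D ℂ K (u k) else 0) := by
      intro k
      rw [pderiv_mul, pderiv_X, map_add, map_mul, map_mul, aeval_X, add_smul, smul_smul]
      rw [mul_comm (aeval u (pderiv k p))]
      congr 1
      split_ifs with h
      · subst h; simp
      · rw [Pi.single_eq_of_ne (Ne.symm h)]
        simp
    rw [Finset.sum_congr rfl fun k _ => this k, Finset.sum_add_distrib, add_comm]
    simp

omit [IsFractionRing R0 K] [IsScalarTower ℂ R0 K] [Algebra R0 K] in
theorem form3_jac (u : Fin 3 → K) (f h : MvPolynomial (Fin 3) ℂ) (d j : Fin 3) (hdj : d ≠ j)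
    (h0 : pderiv d h = 0) :
    form3 (Function.update (Function.update u d (aeval u f)) j (aeval u h)) =
      aeval u (pderiv d f * pderiv j h) • form3 u := by
  rw [form3_eq u _ (Matrix.of fun i k => if i = j then aeval u (pderiv k h) else
    if i = d then aeval u (pderiv k f) else if i = k then 1 else 0)]
  · congr 1
    have h1 : aeval u (pderiv d h) = 0 := by rw [h0, map_zero]
    rw [map_mul, Matrix.det_fin_three]
    simp only [Matrix.of_apply]
    fin_cases d <;> fin_cases j <;> simp at hdj h1 ⊢ <;> simp [h1] <;> ring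
  · intro i
    by_cases hi : i = j
    · subst hi
      rw [Function.update_self, D_aeval]
      simp
    · rw [Function.update_of_ne hi]
      by_cases hi' : i = d
      · subst hi'
        rw [Function.update_self, D_aeval]
        simp [hi]
      · rw [Function.update_of_ne hi']
        simp [hi, hi']

omit [IsFractionRing R0 K] [IsScalarTower ℂ R0 K] [Algebra R0 K] in
theorem form3_mem (V : Subring K) (u : Fin 3 → K) (hu : ∀ k, u k ∈ V) : form3 u ∈ formLattice K V :=
  Submodule.subset_span ⟨u, hu, rfl⟩

omit [IsFractionRing R0 K] [IsScalarTower ℂ R0 K] [Algebra R0 K] in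
theorem form3_pi (V : Subring K) (u : Fin 3 → K) (hu : ∀ k, u k ∈ V) (d j : Fin 3) (hdj : d ≠ j)
    (π α β : K) (hπ : π ∈ V) (hα : α ∈ V) (hβ : β ∈ V) :
    ∃ w ∈ formLattice K V,
      form3 (Function.update (Function.update u d (π * α)) j (π * β)) = π • w := by
  let E : Ω[K⁄ℂ] → Ω[K⁄ℂ] → ⋀[K]^3 (Ω[K⁄ℂ]) := fun x y =>
    exteriorPower.ιMulti K 3 (Function.update (Function.update
      (fun k => KaehlerDifferential.D ℂ K (u k)) d x) j y)
  have hE : ∀ a b : K, form3 (Function.update (Function.update u d a) j b) =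
      E (KaehlerDifferential.D ℂ K a) (KaehlerDifferential.D ℂ K b) := by
    intro a b
    rw [form3]
    congr 1
    funext k
    by_cases hk : k = j
    · subst hk; rw [Function.update_self, Function.update_self]
    · rw [Function.update_of_ne hk, Function.update_of_ne hk]
      by_cases hk' : k = d
      · subst hk'; rw [Function.update_self, Function.update_self]
      · rw [Function.update_of_ne hk', Function.update_of_ne hk']
  have hmem : ∀ a b : K, a ∈ V → b ∈ V →
      E (KaehlerDifferential.D ℂ K a) (KaehlerDifferential.D ℂ K b) ∈ formLattice K V := by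
    intro a b ha hb
    rw [← hE]
    refine form3_mem V _ fun k => ?_
    by_cases hk : k = j
    · subst hk; rw [Function.update_self]; exact hb
    · rw [Function.update_of_ne hk]
      by_cases hk' : k = d
      · subst hk'; rw [Function.update_self]; exact ha
      · rw [Function.update_of_ne hk']; exact hu k
  have hadd2 : ∀ x y z, E x (y + z) = E x y + E x z := fun x y z =>
    AlternatingMap.map_update_add _ _ _ _ _
  have hsmul2 : ∀ (c : K) x y, E x (c • y) = c • E x y := fun c x y =>
    AlternatingMap.map_update_smul _ _ _ _ _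
  have hcomm : ∀ x y, E x y = exteriorPower.ιMulti K 3 (Function.update (Function.update
      (fun k => KaehlerDifferential.D ℂ K (u k)) j y) d x) := by
    intro x y
    change exteriorPower.ιMulti K 3 _ = _
    rw [Function.update_comm hdj]
  have hadd1 : ∀ x y z, E (x + y) z = E x z + E y z := fun x y z => by
    rw [hcomm, hcomm, hcomm]
    exact AlternatingMap.map_update_add _ _ _ _ _
  have hsmul1 : ∀ (c : K) x y, E (c • x) y = c • E x y := fun c x y => by
    rw [hcomm, hcomm]
    exact AlternatingMap.map_update_smul _ _ _ _ _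
  have hself : ∀ x, E x x = 0 := by
    intro x
    refine AlternatingMap.map_eq_zero_of_eq _ _ ?_ hdj
    rw [Function.update_self, Function.update_of_ne hdj, Function.update_self]
  refine ⟨π • E (KaehlerDifferential.D ℂ K α) (KaehlerDifferential.D ℂ K β) +
    β • E (KaehlerDifferential.D ℂ K α) (KaehlerDifferential.D ℂ K π) +
    α • E (KaehlerDifferential.D ℂ K π) (KaehlerDifferential.D ℂ K β), ?_, ?_⟩
  · exact add_mem (add_mem (Submodule.smul_mem _ (⟨π, hπ⟩ : V) (hmem α β hα hβ))
      (Submodule.smul_mem _ (⟨β, hβ⟩ : V) (hmem α π hα hπ)))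
      (Submodule.smul_mem _ (⟨α, hα⟩ : V) (hmem π β hπ hβ))
  · rw [hE, Derivation.leibniz, Derivation.leibniz, hadd1, hadd2, hadd2, hsmul1, hsmul1, hsmul1,
      hsmul1, hsmul2, hsmul2, hsmul2, hsmul2, hself]
    module

theorem term_main (i : Option (Fin 3)) (p : Ideal (chart K i)) [hp : p.IsPrime]
    (h2 : 2 ≤ p.height) (V : ValuationSubring K) (hV : IsDiscreteValuationRing V)
    (hle : locSubring (chart K i) K p ≤ V.toSubring)
    (hdom : ∀ a ∈ locSubring (chart K i) K p, V.valuation a = 1 →
        a⁻¹ ∈ locSubring (chart K i) K p) :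
    ∃ π : K, V.valuation π < 1 ∧ ∃ w ∈ formLattice K V.toSubring, eta0 K = π • w := by
  have : IsDomain R0 := (IsFractionRing.injective R0 K).isDomain _
  have : FaithfulSMul R0 K := IsFractionRing.instFaithfulSMul R0 K
  obtain ⟨u, hu, hA, c, hc0, hc, hc', he⟩ := coord i p
  -- the uniformizer
  obtain ⟨π, hπ⟩ := (IsPrincipalIdealRing.principal (IsLocalRing.maximalIdeal V)).principal
  have hπ1 : V.valuation (π : K) < 1 := by
    refine (V.valuation_lt_one_iff π).1 ?_
    rw [hπ]
    exact Submodule.mem_span_singleton_self π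
  have hdiv : ∀ x : K, x ∈ V → V.valuation x < 1 → ∃ α : K, α ∈ V.toSubring ∧ x = π * α := by
    intro x hx hx1
    have h3 : (⟨x, hx⟩ : V) ∈ IsLocalRing.maximalIdeal V := (V.valuation_lt_one_iff _).2 hx1
    rw [hπ, Submodule.mem_span_singleton] at h3
    obtain ⟨a, ha⟩ := h3
    refine ⟨a, a.2, ?_⟩
    have := congrArg Subtype.val ha
    rw [mul_comm]
    exact this.symm
  -- elements of `p` are not units of `V`
  have hpV : ∀ z : chart K i, z ∈ p → V.valuation (z : K) < 1 := by
    intro z hz
    have h3 : (z : K) ∈ locSubring (chart K i) K p := mem_loc_of _ _ _ z.2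
    have h4 : V.valuation (z : K) ≤ 1 := (V.valuation_le_one_iff _).2 (hle h3)
    refine lt_of_le_of_ne h4 fun h5 => ?_
    obtain ⟨a, s, hs, h6⟩ := hdom _ h3 h5
    have hz0 : (z : K) ≠ 0 := by
      intro h7
      rw [h7, map_zero] at h5
      exact zero_ne_one h5
    have h7 : s = z * a := by
      apply Subtype.ext
      change (s : K) = z * (a : K)
      have h6 : (z : K)⁻¹ * (s : K) = (a : K) := h6
      rw [← h6, mul_inv_cancel_left₀ hz0]
    exact hs (h7 ▸ p.mul_mem_right _ hz)
  let u' : Fin 3 → chart K i := fun k => ⟨u k, hu k⟩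
  have hq : (Ideal.comap (evC i u') p).IsPrime := Ideal.comap_isPrime _ _
  obtain ⟨f, hf, h, hh, d, j, hdj, h0, hJ⟩ := jac (Ideal.comap (evC i u') p) (by
    intro d
    obtain ⟨F, hF, hF'⟩ := exists_rel i p h2 (fun k : Fin 2 => u' (d + k.castSucc + 1))
    have hinj : ∀ d : Fin 3, Function.Injective (fun k : Fin 2 => d + k.castSucc + 1) := by decide
    have hne : ∀ (d : Fin 3) (k : Fin 2), d + k.castSucc + 1 ≠ d := by decide
    refine ⟨rename (fun k : Fin 2 => d + k.castSucc + 1) F, ?_, ?_, ?_⟩
    · rw [Ideal.mem_comap, evC, coe_eval₂Hom, eval₂_rename]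
      exact hF'
    · intro h3
      exact hF (rename_injective _ (hinj d) (h3.trans (map_zero _).symm))
    · classical
      refine pderiv_eq_zero_of_notMem_vars fun h3 => ?_
      have h4 := vars_rename _ _ h3
      rw [Finset.mem_image] at h4
      obtain ⟨k, -, hk⟩ := h4
      exact hne d k hk)
  rw [Ideal.mem_comap] at hf hh hJ
  have hf1 := hpV _ hf
  have hh1 := hpV _ hh
  rw [evC_coe] at hf1 hh1
  have hJi : (aeval u (pderiv d f * pderiv j h))⁻¹ ∈ locSubring (chart K i) K p := by
    have := inv_mem_loc (chart K i) p (evC i u' (pderiv d f * pderiv j h) : K)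
      (evC i u' (pderiv d f * pderiv j h)).2 hJ
    rw [evC_coe] at this
    exact this
  have hJ0 : aeval u (pderiv d f * pderiv j h) ≠ 0 := by
    intro h3
    apply hJ
    have : evC i u' (pderiv d f * pderiv j h) = 0 := by
      apply Subtype.ext
      rw [evC_coe]
      exact h3
    rw [this]
    exact p.zero_mem
  have huV : ∀ k, u k ∈ V.toSubring := fun k => hle (mem_loc_of _ _ _ (hu k))
  have hfV : aeval u f ∈ V := (V.valuation_le_one_iff _).1 hf1.le
  have hhV : aeval u h ∈ V := (V.valuation_le_one_iff _).1 hh1.le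
  obtain ⟨α, hα, hfα⟩ := hdiv _ hfV hf1
  obtain ⟨β, hβ, hhβ⟩ := hdiv _ hhV hh1
  obtain ⟨w, hw, hw'⟩ := form3_pi V.toSubring u huV d j hdj π α β π.2 hα hβ
  have h3 := form3_jac u f h d j hdj h0
  rw [hfα, hhβ, hw'] at h3
  refine ⟨π, hπ1, (c * (aeval u (pderiv d f * pderiv j h))⁻¹) • w, ?_, ?_⟩
  · exact Submodule.smul_mem _ (⟨_, mul_mem (hle hc) (hle hJi)⟩ : V.toSubring) hw
  · rw [he, smul_comm (π : K), h3, smul_smul, mul_assoc, inv_mul_cancel₀ hJ0, mul_one]

end

end H92

/-- TERM -/
theorem term : TermStatement := by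
  intro K _ _ _ _ _ i p _ h2 V hV _ hle hdom
  exact H92.term_main i p h2 V hV hle hdom

end Pool.Agent.H66DE
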