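import Pool.Agent.Helper66_DE.Statements

/-!
# Basic facts on the charts of the blow-up (modules CHX and DOM)
-/

open MvPolynomial

noncomputable section

namespace Pool.Agent.H66DE

namespace H92

theorem rel : xR ^ 4 + (yR 0 ^ 3 + yR 1 ^ 3 + yR 2 ^ 3) = (0 : R0) := by
  have h := AdjoinRoot.eval₂_root fR
  rw [fR, Polynomial.eval₂_add, Polynomial.eval₂_pow, Polynomial.eval₂_X, Polynomial.eval₂_C] at h
  rw [← h]
  change _ = AdjoinRoot.root fR ^ 4 + algebraMap S R0
    (MvPolynomial.X 0 ^ 3 + MvPolynomial.X 1 ^ 3 + MvPolynomial.X 2 ^ 3)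
  rw [map_add, map_add, map_pow, map_pow, map_pow]
  rfl

theorem fR_monic : fR.Monic := by
  rw [fR]
  exact Polynomial.monic_X_pow_add_C _ (by norm_num)

theorem fR_natDegree : fR.natDegree = 4 := by
  rw [fR]
  exact Polynomial.natDegree_X_pow_add_C

theorem fR_degree_ne : fR.degree ≠ 0 := by
  intro h
  have := Polynomial.natDegree_eq_of_degree_eq_some (n := 0) (by rw [h]; rfl)
  rw [fR_natDegree] at this
  omega

theorem inj_S : Function.Injective (algebraMap S R0) :=
  AdjoinRoot.of.injective_of_degree_ne_zero fR_degree_ne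

theorem xR_ne : xR ≠ 0 := by
  rw [xR, ← AdjoinRoot.mk_X]
  refine AdjoinRoot.mk_ne_zero_of_natDegree_lt fR_monic Polynomial.X_ne_zero ?_
  rw [Polynomial.natDegree_X, fR_natDegree]
  norm_num

theorem yR_ne (j : Fin 3) : yR j ≠ 0 := by
  intro h
  have := inj_S (a₁ := X j) (a₂ := 0) (by rw [map_zero]; exact h)
  exact X_ne_zero j this

theorem sR_ne (i : Option (Fin 3)) : sR i ≠ 0 := by
  rcases i with _ | j
  · exact xR_ne
  · exact yR_ne j

section

variable (K : Type) [Field K] [Algebra R0 K]

/-- the image of a generator of the ideal -/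
def ks (i : Option (Fin 3)) : K := algebraMap R0 K (sR i)

theorem ks_ne [FaithfulSMul R0 K] (i : Option (Fin 3)) : ks K i ≠ 0 := by
  rw [ks, Ne, FaithfulSMul.algebraMap_eq_zero_iff]
  exact sR_ne i

theorem krel : ks K none ^ 4 + (ks K (some 0) ^ 3 + ks K (some 1) ^ 3 + ks K (some 2) ^ 3) = 0 := by
  have h := congrArg (algebraMap R0 K) rel
  simp only [map_add, map_pow, map_zero] at h
  exact h

variable {K}

theorem r0_mem [Algebra ℂ K] [IsScalarTower ℂ R0 K] (B : Subring K)
    (hc : ∀ c : ℂ, algebraMap ℂ K c ∈ B) (hs : ∀ i, ks K i ∈ B) (r : R0) :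
    algebraMap R0 K r ∈ B := by
  have hS : ∀ s : S, algebraMap R0 K (algebraMap S R0 s) ∈ B := by
    intro s
    induction s using MvPolynomial.induction_on with
    | C a =>
      have : algebraMap R0 K (algebraMap S R0 (C a)) = algebraMap ℂ K a := by
        rw [IsScalarTower.algebraMap_apply ℂ R0 K, IsScalarTower.algebraMap_apply ℂ S R0]
        rfl
      rw [this]; exact hc a
    | add p q hp hq => rw [map_add, map_add]; exact add_mem hp hq
    | mul_X p j hp => rw [map_mul, map_mul]; exact mul_mem hp (hs (some j))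
  induction r using AdjoinRoot.induction_on with
  | ih p =>
    induction p using Polynomial.induction_on with
    | C a => exact hS a
    | add p q hp hq => rw [map_add, map_add]; exact add_mem hp hq
    | monomial n a h =>
      rw [pow_succ, ← mul_assoc, map_mul, map_mul]
      exact mul_mem h (hs none)

theorem pow_mem_of (B : Subring K) (i : Option (Fin 3)) (h0 : ∀ r, algebraMap R0 K r ∈ B)
    (h1 : ∀ i', ks K i' / ks K i ∈ B) (n : ℕ) :
    ∀ r ∈ IR ^ n, algebraMap R0 K r / ks K i ^ n ∈ B := by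
  induction n with
  | zero => intro r _; rw [pow_zero, div_one]; exact h0 r
  | succ n ih =>
    intro r hr
    rw [pow_succ] at hr
    refine Submodule.mul_induction_on hr ?_ ?_
    · intro a ha b hb
      have hb' : algebraMap R0 K b / ks K i ∈ B := by
        refine Submodule.span_induction ?_ ?_ ?_ ?_ hb
        · rintro _ ⟨i', rfl⟩; exact h1 i'
        · rw [map_zero, zero_div]; exact zero_mem B
        · intro x y _ _ hx hy; rw [map_add, add_div]; exact add_mem hx hy
        · intro c x _ hx
          rw [smul_eq_mul, map_mul, mul_div_assoc]; exact mul_mem (h0 c) hx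
      rw [map_mul, pow_succ, mul_div_mul_comm]
      exact mul_mem (ih a ha) hb'
    · intro a b ha hb
      rw [map_add, add_div]; exact add_mem ha hb

theorem chart_le [FaithfulSMul R0 K] (B : Subring K) (i : Option (Fin 3))
    (h0 : ∀ r, algebraMap R0 K r ∈ B) (h1 : ∀ i', ks K i' / ks K i ∈ B) : chart K i ≤ B := by
  rintro z ⟨n, r, hr, hz⟩
  have hne : algebraMap R0 K (sR i) ^ n ≠ 0 := pow_ne_zero _ (ks_ne K i)
  have : z = algebraMap R0 K r / ks K i ^ n := eq_div_of_mul_eq hne hz
  rw [this]
  exact pow_mem_of B i h0 h1 n r hr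

theorem alg_mem_chart (i : Option (Fin 3)) (r : R0) : algebraMap R0 K r ∈ chart K i :=
  ⟨0, r, by simp, by simp⟩

theorem div_mem_chart [FaithfulSMul R0 K] (i i' : Option (Fin 3)) : ks K i' / ks K i ∈ chart K i :=
  ⟨1, sR i', by rw [pow_one]; exact Ideal.subset_span ⟨i', rfl⟩, by
    rw [pow_one]; exact div_mul_cancel₀ _ (ks_ne K i)⟩

theorem const_mem_chart [Algebra ℂ K] [IsScalarTower ℂ R0 K] (i : Option (Fin 3)) (c : ℂ) :
    algebraMap ℂ K c ∈ chart K i := by
  rw [IsScalarTower.algebraMap_apply ℂ R0 K]; exact alg_mem_chart i _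

/-- `x = -(a₀³+a₁³+a₂³)` -/
theorem kx_eq [FaithfulSMul R0 K] : ks K none = -((ks K (some 0) / ks K none) ^ 3 +
    (ks K (some 1) / ks K none) ^ 3 + (ks K (some 2) / ks K none) ^ 3) := by
  have h := krel K
  have hx := ks_ne K none
  field_simp
  linear_combination h

theorem chartX_le [Algebra ℂ K] [IsScalarTower ℂ R0 K] [FaithfulSMul R0 K] (B : Subring K)
    (hc : ∀ c : ℂ, algebraMap ℂ K c ∈ B) (ha : ∀ j : Fin 3, ks K (some j) / ks K none ∈ B) :
    chart K none ≤ B := by
  have hx : ks K none ∈ B := by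
    rw [kx_eq]
    exact neg_mem (add_mem (add_mem (pow_mem (ha 0) 3) (pow_mem (ha 1) 3)) (pow_mem (ha 2) 3))
  refine chart_le B none (r0_mem B hc ?_) ?_
  · rintro (_ | j)
    · exact hx
    · have : ks K (some j) = ks K (some j) / ks K none * ks K none :=
        (div_mul_cancel₀ _ (ks_ne K none)).symm
      rw [this]; exact mul_mem (ha j) hx
  · rintro (_ | j)
    · rw [div_self (ks_ne K none)]; exact one_mem B
    · exact ha j

end

theorem chartX_iff (K : Type) [Field K] [Algebra R0 K] [FaithfulSMul R0 K] [Algebra ℂ K]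
    [IsScalarTower ℂ R0 K] (z : K) : z ∈ chart K none ↔ z ∈ (MvPolynomial.aeval (R := ℂ)
      (fun j : Fin 3 => algebraMap R0 K (yR j) / algebraMap R0 K xR)).range := by
  constructor
  · intro hz
    refine chartX_le ((MvPolynomial.aeval (R := ℂ)
      (fun j : Fin 3 => algebraMap R0 K (yR j) / algebraMap R0 K xR)).range).toSubring ?_ ?_ hz
    · intro c; exact ⟨C c, by simp⟩
    · intro j; exact ⟨X j, by simp [ks, sR]⟩
  · rintro ⟨p, rfl⟩
    change MvPolynomial.aeval (R := ℂ)
      (fun j : Fin 3 => algebraMap R0 K (yR j) / algebraMap R0 K xR) p ∈ _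
    induction p using MvPolynomial.induction_on with
    | C a => rw [aeval_C]; exact const_mem_chart none a
    | add p q hp hq => rw [map_add]; exact add_mem hp hq
    | mul_X p j hp => rw [map_mul, aeval_X]; exact mul_mem hp (div_mem_chart none (some j))

/-- the field `K` is algebraic over `ℂ[a]`, `a_j = y_j/x` -/
theorem alg_over (K : Type) [Field K] [Algebra R0 K] [IsFractionRing R0 K] [Algebra ℂ K]
    [IsScalarTower ℂ R0 K] : Algebra.IsAlgebraic (Algebra.adjoin ℂ (Set.range
      (fun j : Fin 3 => algebraMap R0 K (yR j) / algebraMap R0 K xR))) K := by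
  set A := Algebra.adjoin ℂ (Set.range
      (fun j : Fin 3 => algebraMap R0 K (yR j) / algebraMap R0 K xR)) with hA
  have : IsDomain R0 := (IsFractionRing.injective R0 K).isDomain _
  have : FaithfulSMul R0 K := IsFractionRing.instFaithfulSMul R0 K
  have h1 : ∀ r : R0, algebraMap R0 K r ∈ A := by
    intro r
    have : algebraMap R0 K r ∈ chart K none := alg_mem_chart none r
    refine chartX_le A.toSubring ?_ ?_ this
    · intro c; exact A.algebraMap_mem c
    · intro j; exact Algebra.subset_adjoin ⟨j, rfl⟩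
  constructor
  intro z
  obtain ⟨a, b, hb, rfl⟩ := IsFractionRing.div_surjective (A := R0) z
  have ha' : IsAlgebraic A (algebraMap R0 K a) := isAlgebraic_algebraMap (⟨_, h1 a⟩ : A)
  have hb' : IsAlgebraic A (algebraMap R0 K b) := isAlgebraic_algebraMap (⟨_, h1 b⟩ : A)
  rw [div_eq_mul_inv]
  exact ha'.mul hb'.inv

theorem le_trdeg (K : Type) [Field K] [Algebra R0 K] [IsFractionRing R0 K] [Algebra ℂ K]
    [IsScalarTower ℂ R0 K] : Cardinal.mk (Fin 3) ≤ Algebra.trdeg ℂ K := by
  have : IsDomain R0 := (IsFractionRing.injective R0 K).isDomain _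
  let φ : S →ₐ[ℂ] K := (IsScalarTower.toAlgHom ℂ R0 K).comp (IsScalarTower.toAlgHom ℂ S R0)
  have hφ : Function.Injective φ := (IsFractionRing.injective R0 K).comp inj_S
  have h2 : AlgebraicIndependent ℂ (fun j : Fin 3 => φ (X j)) := by
    have h3 : MvPolynomial.aeval (R := ℂ) (fun j : Fin 3 => φ (X j)) = φ := by
      ext j; simp
    rw [AlgebraicIndependent, h3]
    exact hφ
  exact h2.cardinalMk_le_trdeg

theorem tbasis (K : Type) [Field K] [Algebra R0 K] [IsFractionRing R0 K] [Algebra ℂ K]
    [IsScalarTower ℂ R0 K] : IsTranscendenceBasis ℂ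
      (fun j : Fin 3 => algebraMap R0 K (yR j) / algebraMap R0 K xR) := by
  have := alg_over K
  exact Algebra.IsAlgebraic.isTranscendenceBasis_of_le_trdeg_of_finite ℂ _ (le_trdeg K)

end H92

/-- CHX -/
theorem chartX : ChartXStatement := by
  intro K _ _ _ _ _
  have : IsDomain R0 := (IsFractionRing.injective R0 K).isDomain _
  have : FaithfulSMul R0 K := IsFractionRing.instFaithfulSMul R0 K
  exact ⟨(H92.tbasis K).1, H92.chartX_iff K⟩

/-- DOM -/
theorem dom : DomStatement := by
  intro K _ _ _ V hV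
  have : IsDomain R0 := (IsFractionRing.injective R0 K).isDomain _
  have : FaithfulSMul R0 K := IsFractionRing.instFaithfulSMul R0 K
  obtain ⟨i, hi⟩ := Finite.exists_max (fun i => V.valuation (H92.ks K i))
  refine ⟨i, H92.chart_le V.toSubring i hV fun i' => ?_⟩
  change _ ∈ V
  rw [← V.valuation_le_one_iff, map_div₀]
  exact div_le_one_of_le₀ (hi i') zero_le

end Pool.Agent.H66DE
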