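import Pool.Agent.Helper92_DE.Forms

/-!
# Jacobians of elements of a prime ideal of a polynomial ring
-/

open MvPolynomial

noncomputable section

namespace Pool.Agent.H66DE

namespace H92

theorem totalDegree_pderiv_lt {h : MvPolynomial (Fin 3) ℂ} {j : Fin 3} (h0 : pderiv j h ≠ 0) :
    (pderiv j h).totalDegree < h.totalDegree := by
  have h1 : ∀ m ∈ (pderiv j h).support, (m.sum fun _ e => e) < h.totalDegree := by
    intro m hm
    rw [mem_support_iff, coeff_pderiv] at hm
    have h2 : m + Finsupp.single j 1 ∈ h.support := by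
      rw [mem_support_iff]
      intro h3
      rw [h3, zero_mul] at hm
      exact hm rfl
    have h3 := le_totalDegree h2
    have h4 : ((m + Finsupp.single j 1).sum fun _ e => e) = (m.sum fun _ e => e) + 1 := by
      rw [Finsupp.sum_add_index' (fun _ => rfl) (fun _ _ _ => rfl), Finsupp.sum_single_index rfl]
    omega
  obtain ⟨m, hm⟩ := Finset.nonempty_iff_ne_empty.2 (fun h2 => h0 (support_eq_empty.1 h2))
  rw [totalDegree, Finset.sup_lt_iff]
  · exact h1
  · exact lt_of_le_of_lt (Nat.zero_le _) (h1 m hm)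

theorem eq_C_of_pderiv {h : MvPolynomial (Fin 3) ℂ} (h0 : ∀ j, pderiv j h = 0) :
    h = C (coeff 0 h) := by
  ext m
  rw [coeff_C]
  split_ifs with hm
  · rw [hm]
  · obtain ⟨j, hj⟩ : ∃ j, m j ≠ 0 := by
      by_contra hcon
      push Not at hcon
      exact hm (Finsupp.ext fun j => (hcon j).symm)
    have h1 := congrArg (coeff (m - Finsupp.single j 1)) (h0 j)
    rw [coeff_pderiv, coeff_zero] at h1
    have h2 : m - Finsupp.single j 1 + Finsupp.single j 1 = m :=
      tsub_add_cancel_of_le (Finsupp.single_le_iff.2 (Nat.one_le_iff_ne_zero.2 hj))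
    rw [h2] at h1
    rcases mul_eq_zero.1 h1 with h3 | h3
    · exact h3
    · exfalso
      exact Nat.cast_add_one_ne_zero _ h3

/-- minimal elements of a derivation-closed family -/
theorem exists_min (q : Ideal (MvPolynomial (Fin 3) ℂ)) (hq : q ≠ ⊤)
    (P : MvPolynomial (Fin 3) ℂ → Prop) (hP : ∀ h j, P h → P (pderiv j h))
    (hne : ∃ h ∈ q, h ≠ 0 ∧ P h) :
    ∃ h ∈ q, P h ∧ ∃ j, pderiv j h ∉ q := by
  classical
  let T : Set ℕ := {n | ∃ h ∈ q, h ≠ 0 ∧ P h ∧ h.totalDegree = n}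
  have hT : ∃ n, n ∈ T := by
    obtain ⟨h, h1, h2, h3⟩ := hne
    exact ⟨_, h, h1, h2, h3, rfl⟩
  obtain ⟨h, h1, h2, h3, h4⟩ := Nat.find_spec hT
  refine ⟨h, h1, h3, ?_⟩
  by_contra hcon
  push Not at hcon
  have h5 : ∀ j, pderiv j h = 0 := by
    intro j
    by_contra h6
    have h7 := totalDegree_pderiv_lt h6
    exact Nat.find_min hT (h4 ▸ h7) ⟨_, hcon j, h6, hP h j h3, rfl⟩
  have h8 := eq_C_of_pderiv h5
  have h9 : coeff 0 h ≠ 0 := by
    intro h10
    rw [h10, C_0] at h8
    exact h2 h8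
  apply hq
  rw [Ideal.eq_top_iff_one]
  have : (1 : MvPolynomial (Fin 3) ℂ) = C (coeff 0 h)⁻¹ * h := by
    conv_rhs => rw [h8]
    rw [← C_mul, coeff_C, if_pos rfl, inv_mul_cancel₀ h9, C_1]
  rw [this]
  exact q.mul_mem_left _ h1

theorem pderiv_comm' (i j : Fin 3) (h : MvPolynomial (Fin 3) ℂ) :
    pderiv i (pderiv j h) = pderiv j (pderiv i h) := by
  ext m
  simp only [coeff_pderiv]
  rw [add_right_comm]
  rcases eq_or_ne i j with rfl | hij
  · rfl
  · simp only [Finsupp.add_apply, Finsupp.single_apply]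
    rw [if_neg hij, if_neg hij.symm]
    push_cast
    ring

/-- the Jacobian lemma -/
theorem jac (q : Ideal (MvPolynomial (Fin 3) ℂ)) [hq : q.IsPrime]
    (hne : ∀ d : Fin 3, ∃ h ∈ q, h ≠ 0 ∧ pderiv d h = 0) :
    ∃ f ∈ q, ∃ h ∈ q, ∃ d j : Fin 3, d ≠ j ∧ pderiv d h = 0 ∧ pderiv d f * pderiv j h ∉ q := by
  obtain ⟨f, hf, -, d, hd⟩ := exists_min q hq.ne_top (fun _ => True) (fun _ _ _ => trivial)
    (by obtain ⟨h, h1, h2, -⟩ := hne 0; exact ⟨h, h1, h2, trivial⟩)
  obtain ⟨h, hh, h0, j, hj⟩ := exists_min q hq.ne_top (fun h => pderiv d h = 0)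
    (fun h j hh => by rw [pderiv_comm', hh, map_zero]) (hne d)
  refine ⟨f, hf, h, hh, d, j, ?_, h0, ?_⟩
  · rintro rfl
    rw [h0] at hj
    exact hj q.zero_mem
  · intro hm
    rcases hq.mem_or_mem hm with h1 | h1
    · exact hd h1
    · exact hj h1

/-- the lifting lemma -/
theorem lift_indep {R D : Type} [CommRing R] [CommRing D] (φ : R →+* D) (P Q : Ideal D)
    [hQ : Q.IsPrime] (hQP : Q ≤ P) (hφ : ∀ r, φ r ∈ P → r = 0) (f : D) (hf : f ∈ P) (hf' : f ∉ Q) :
    ∀ F : Polynomial R, F.eval₂ φ f ∈ Q → F = 0 := by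
  intro F
  induction hn : F.natDegree using Nat.strong_induction_on generalizing F with
  | _ n ih =>
    intro hF
    by_contra h0
    have h1 : F = F.divX * Polynomial.X + Polynomial.C (F.coeff 0) :=
      (Polynomial.divX_mul_X_add F).symm
    have h2 : F.eval₂ φ f = F.divX.eval₂ φ f * f + φ (F.coeff 0) := by
      conv_lhs => rw [h1]
      rw [Polynomial.eval₂_add, Polynomial.eval₂_mul, Polynomial.eval₂_X, Polynomial.eval₂_C]
    have h3 : F.coeff 0 = 0 := by
      apply hφ
      have : φ (F.coeff 0) = F.eval₂ φ f - F.divX.eval₂ φ f * f := by rw [h2]; ring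
      rw [this]
      exact P.sub_mem (hQP hF) (P.mul_mem_left _ hf)
    rw [h3, map_zero, add_zero] at h2
    rw [h3, map_zero, add_zero] at h1
    rw [h2] at hF
    have h4 : F.divX.eval₂ φ f ∈ Q := (hQ.mem_or_mem hF).resolve_right hf'
    have h5 : F.divX = 0 := by
      by_contra h6
      have h7 : F.divX.natDegree < n := by
        rw [Polynomial.natDegree_divX_eq_natDegree_tsub_one, hn]
        have : n ≠ 0 := by
          intro h8
          rw [h8] at hn
          have h9 := Polynomial.eq_C_of_natDegree_eq_zero hn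
          rw [h3, map_zero] at h9
          exact h0 h9
        omega
      exact h6 (ih _ h7 _ rfl h4)
    rw [h5, zero_mul] at h1
    exact h0 h1

theorem trdeg_pp : Algebra.trdeg ℂ (Polynomial (Polynomial (MvPolynomial (Fin 2) ℂ))) = 4 := by
  have h1 := trdeg_add_eq ℂ (MvPolynomial (Fin 2) ℂ) (A := Polynomial (MvPolynomial (Fin 2) ℂ))
  have h2 := trdeg_add_eq ℂ (Polynomial (MvPolynomial (Fin 2) ℂ))
    (A := Polynomial (Polynomial (MvPolynomial (Fin 2) ℂ)))
  rw [← h2, ← h1, Polynomial.trdeg_of_isDomain, Polynomial.trdeg_of_isDomain,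
    MvPolynomial.trdeg_of_isDomain]
  simp
  norm_num

end H92

end Pool.Agent.H66DE
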